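import Pool.Agent.N699.PC.Stm

set_option autoImplicit false

/-! Project Q3: the theorem from the leaves. -/

namespace Pool.Agent.N699.PC

theorem all_ (hJAC : JAC) (hREC : REC) (hSPL : SPL) (hLIM : LIM) (hPARA : PARA) (hCS : CS) (hSTA : STA) (hPHIA : PHIA)
    (hMAIA : MAIA) (hHCO : HCO) (hIDEA : IDEA) (hMODA : MODA) (hHSU : HSU) (hHOD : HOD) (hHM4 : HM4) (hLOC1 : LOC1)
    (hLOC2 : LOC2) (hLOC3 : LOC3) (hLOC4 : LOC4) (hRT1 : RT1) (hRT2 : RT2) (hRT4 : RT4) (hP12A : P12A) (hFIN1A : FIN1A)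
    (hFIN2A : FIN2A) (hFIN3A : FIN3A) (hALLA : ALLA) : ALL := by
  have hMOD : MOD := hMODA (hIDEA (hMAIA hJAC hSPL (hPARA hREC hSPL hLIM) hCS (hPHIA hJAC hLIM)) hSTA hHCO)
  exact hALLA (hFIN1A hMOD hHOD hHM4 (hP12A hRT1 hRT2 hRT4)) (hFIN2A hMOD hHSU hHOD hLOC1 hLOC2)
    (hFIN3A hMOD hHSU hHOD hLOC3 hLOC4)

end Pool.Agent.N699.PC
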