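import Pool.Agent.N699.PC.Stm

set_option autoImplicit false

/-! Proofs of the statements CS, STA, PHIA of `Pool.Agent.N699.PC.Stm`. -/

namespace Pool.Agent.N699.PC
open Finset PowerSeries

theorem iv_mul (f : ℤ⟦X⟧) (hf : constantCoeff f = 1) : f * iv f = 1 := by
  unfold iv
  exact mul_invOfUnit f 1 (by simpa using hf)

theorem cc_prod (s : Finset ℕ) (f : ℕ → ℤ⟦X⟧) (hf : ∀ i ∈ s, constantCoeff (f i) = 1) :
    constantCoeff (∏ i ∈ s, f i) = 1 := by
  rw [map_prod]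
  exact Finset.prod_eq_one hf

/-- congruence of `iv` -/
theorem iv_congr (K : ℕ) (f g : ℤ⟦X⟧) (hf : constantCoeff f = 1) (hg : constantCoeff g = 1)
    (h : X ^ K ∣ f - g) : X ^ K ∣ iv f - iv g := by
  have e : iv f - iv g = (f - g) * (-(iv f * iv g)) := by
    have h1 := iv_mul f hf
    have h2 := iv_mul g hg
    linear_combination (iv g) * h1 - (iv f) * h2
  rw [e]
  exact Dvd.dvd.mul_right h _

/-- a product of factors congruent to one -/
theorem prod_congr_one (K : ℕ) (s : Finset ℕ) (f : ℕ → ℤ⟦X⟧) (hf : ∀ i ∈ s, X ^ K ∣ f i - 1) :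
    X ^ K ∣ (∏ i ∈ s, f i) - 1 := by
  classical
  induction s using Finset.induction_on with
  | empty => simp
  | insert a s ha ih =>
    rw [Finset.prod_insert ha]
    have h1 := hf a (Finset.mem_insert_self a s)
    have h2 := ih (fun i hi => hf i (Finset.mem_insert_of_mem hi))
    have e : f a * ∏ i ∈ s, f i - 1 = (f a - 1) * (∏ i ∈ s, f i) + ((∏ i ∈ s, f i) - 1) := by ring
    rw [e]
    exact dvd_add (Dvd.dvd.mul_right h1 _) h2

theorem oo_shift (m M : ℕ) : oo m * (∏ i ∈ range M, (1 - X ^ (2 * m + 1 + 2 * i))) = oo (m + M) := by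
  unfold oo
  rw [Finset.prod_range_add]
  congr 1
  apply Finset.prod_congr rfl
  intro i _
  congr 2
  ring

theorem pp_shift (m M : ℕ) : pp m * (∏ i ∈ range M, (1 + X ^ (2 * m + 2 + 2 * i))) = pp (m + M) := by
  unfold pp
  rw [Finset.prod_range_add]
  congr 1
  apply Finset.prod_congr rfl
  intro i _
  congr 2
  ring

theorem cc_oo (m : ℕ) : constantCoeff (oo m) = 1 := by
  apply cc_prod
  intro i _
  simp

theorem cc_pp (m : ℕ) : constantCoeff (pp m) = 1 := by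
  apply cc_prod
  intro i _
  simp

theorem cc_G (m M : ℕ) : constantCoeff (∏ i ∈ range M, ((1 : ℤ⟦X⟧) - X ^ (2 * m + 1 + 2 * i))) = 1 := by
  apply cc_prod
  intro i _
  simp

theorem oo_congr (m M : ℕ) : X ^ (2 * M + 1) ∣ oo (m + M) - oo M := by
  rw [add_comm m M, ← oo_shift M m]
  have h : X ^ (2 * M + 1) ∣ (∏ i ∈ range m, ((1 : ℤ⟦X⟧) - X ^ (2 * M + 1 + 2 * i))) - 1 := by
    apply prod_congr_one
    intro i _
    rw [pow_add]
    exact ⟨-X ^ (2 * i), by ring⟩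
  have e : oo M * ∏ i ∈ range m, ((1 : ℤ⟦X⟧) - X ^ (2 * M + 1 + 2 * i)) - oo M =
    oo M * ((∏ i ∈ range m, ((1 : ℤ⟦X⟧) - X ^ (2 * M + 1 + 2 * i))) - 1) := by ring
  rw [e]
  exact Dvd.dvd.mul_left h _

theorem pp_congr (m M : ℕ) : X ^ (2 * M + 1) ∣ pp (m + M) - pp M := by
  rw [add_comm m M, ← pp_shift M m]
  have h : X ^ (2 * M + 1) ∣ (∏ i ∈ range m, ((1 : ℤ⟦X⟧) + X ^ (2 * M + 2 + 2 * i))) - 1 := by
    apply prod_congr_one
    intro i _
    exact ⟨X ^ (1 + 2 * i), by ring⟩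
  have e : pp M * ∏ i ∈ range m, ((1 : ℤ⟦X⟧) + X ^ (2 * M + 2 + 2 * i)) - pp M =
    pp M * ((∏ i ∈ range m, ((1 : ℤ⟦X⟧) + X ^ (2 * M + 2 + 2 * i))) - 1) := by ring
  rw [e]
  exact Dvd.dvd.mul_left h _

theorem t_CS : CS := by
  intro M
  unfold CN S
  rw [Finset.sum_mul, Finset.mul_sum, ← Finset.sum_sub_distrib]
  apply Finset.dvd_sum
  intro m _
  set E : ℤ⟦X⟧ := ∏ i ∈ range M, (1 + X ^ (2 * m + 2 + 2 * i)) with hE
  set G : ℤ⟦X⟧ := ∏ i ∈ range M, (1 - X ^ (2 * m + 1 + 2 * i)) with hG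
  have hGi : G * iv G = 1 := iv_mul G (cc_G m M)
  have hpi : pp m * iv (pp m) = 1 := iv_mul _ (cc_pp m)
  have h1 : oo m * G = oo (m + M) := oo_shift m M
  have h2 : pp m * E = pp (m + M) := pp_shift m M
  obtain ⟨a, ha⟩ := oo_congr m M
  obtain ⟨b, hb⟩ := pp_congr m M
  -- oo M * iv G = oo m - X^.. * a * iv G
  have h3 : oo M * iv G = oo m - X ^ (2 * M + 1) * a * iv G := by
    have : oo M = oo m * G - X ^ (2 * M + 1) * a := by rw [h1, ← ha]; ring
    rw [this]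
    linear_combination (oo m) * hGi
  have h4 : E = pp M * iv (pp m) + X ^ (2 * M + 1) * b * iv (pp m) := by
    have : pp M + X ^ (2 * M + 1) * b = pp m * E := by rw [h2, ← hb]; ring
    have h5 : E = (pp m * E) * iv (pp m) := by linear_combination (-E) * hpi
    rw [h5, ← this]
    ring
  have h6 : X ^ (2 * m + 1) * E * (iv G) ^ 2 * oo M ^ 2 = X ^ (2 * m + 1) * E * (oo M * iv G) ^ 2 := by ring
  rw [h6, h3]
  rw [h4]
  refine ⟨X * X ^ (2 * m + 1) * (b * iv (pp m) * (oo m - X ^ (2 * M + 1) * a * iv G) ^ 2 +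
    pp M * iv (pp m) * (X ^ (2 * M + 1) * (a * iv G) ^ 2 - 2 * oo m * (a * iv G))), ?_⟩
  ring

theorem CN_step (M : ℕ) : X ^ M ∣ CN (M + 1) - CN M := by
  unfold CN
  rw [Finset.sum_range_succ]
  rw [add_sub_right_comm, ← Finset.sum_sub_distrib]
  apply dvd_add
  · apply Finset.dvd_sum
    intro m _
    rw [Finset.prod_range_succ, Finset.prod_range_succ]
    set E : ℤ⟦X⟧ := ∏ i ∈ range M, (1 + X ^ (2 * m + 2 + 2 * i)) with hE
    set G : ℤ⟦X⟧ := ∏ i ∈ range M, (1 - X ^ (2 * m + 1 + 2 * i)) with hG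
    have hG1 : constantCoeff G = 1 := cc_G m M
    have hG2 : constantCoeff (G * (1 - X ^ (2 * m + 1 + 2 * M))) = 1 := by
      rw [map_mul, hG1]; simp
    have h1 : X ^ M ∣ iv (G * (1 - X ^ (2 * m + 1 + 2 * M))) - iv G := by
      apply iv_congr M _ _ hG2 hG1
      exact ⟨-(G * X ^ (2 * m + 1 + M)), by ring⟩
    obtain ⟨a, ha⟩ := h1
    have h2 : iv (G * (1 - X ^ (2 * m + 1 + 2 * M))) = iv G + X ^ M * a := by rw [← ha]; ring
    rw [h2]
    refine ⟨X ^ (2 * m + 1) * (E * X ^ (2 * m + 2 + M) * (iv G + X ^ M * a) ^ 2 +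
      E * (2 * iv G * a + X ^ M * a ^ 2)), ?_⟩
    ring
  · exact ⟨X ^ (M + 1) * (∏ i ∈ range (M + 1), (1 + X ^ (2 * M + 2 + 2 * i))) *
      (iv (∏ i ∈ range (M + 1), (1 - X ^ (2 * M + 1 + 2 * i)))) ^ 2, by ring⟩

theorem t_STA : STA := by
  intro n M hM
  have key : ∀ d : ℕ, X ^ (n + 1) ∣ CN (n + 1 + d) - CN (n + 1) := by
    intro d
    induction d with
    | zero => simp
    | succ d ih =>
      have h := CN_step (n + 1 + d)
      have h' : X ^ (n + 1) ∣ CN (n + 1 + d + 1) - CN (n + 1 + d) :=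
        dvd_trans (pow_dvd_pow X (by omega)) h
      have e : CN (n + 1 + (d + 1)) - CN (n + 1) =
        (CN (n + 1 + d + 1) - CN (n + 1 + d)) + (CN (n + 1 + d) - CN (n + 1)) := by
        rw [← add_assoc]; ring
      rw [e]
      exact dvd_add h' ih
  obtain ⟨d, rfl⟩ : ∃ d, M = n + 1 + d := ⟨M - (n + 1), by omega⟩
  have h := key d
  rw [PowerSeries.X_pow_dvd_iff] at h
  have h2 := h n (by omega)
  rw [map_sub] at h2
  unfold c
  linarith

theorem t_PHIA : PHIA := by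
  intro hJ hL M
  rw [hJ M]
  unfold phi
  rw [Finset.sum_mul, ← Finset.sum_sub_distrib]
  apply Finset.dvd_sum
  intro k hk
  have hk' : k ≤ M := by
    rw [Finset.mem_range] at hk; omega
  obtain ⟨a, ha⟩ := hL k M hk'
  have e : C (w k) * (-1) ^ k * X ^ (k ^ 2) * (ee (2 * M) * iv (ee (M - k)) * iv (ee (M + k))) * ee M -
      C (w k) * (-1) ^ k * X ^ (k ^ 2) =
      C (w k) * (-1) ^ k * X ^ (k ^ 2) * (ee (2 * M) * ee M * iv (ee (M - k)) * iv (ee (M + k)) - 1) := by ring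
  rw [e, ha]
  have h2 : M ≤ k ^ 2 + (2 * (M - k) + 2) := by
    obtain ⟨d, rfl⟩ : ∃ d, M = k + d := ⟨M - k, by omega⟩
    have : k + d - k = d := by omega
    rw [this]
    nlinarith [sq_nonneg ((k : ℤ) - 1), Nat.zero_le d, Nat.zero_le k, sq_nonneg (k : ℤ)]
  have h3 : (X : ℤ⟦X⟧) ^ M ∣ X ^ (k ^ 2) * X ^ (2 * (M - k) + 2) := by
    rw [← pow_add]
    exact pow_dvd_pow X h2
  obtain ⟨b, hb⟩ := h3
  refine ⟨C (w k) * (-1) ^ k * b * a, ?_⟩
  calc C (w k) * (-1) ^ k * X ^ (k ^ 2) * (X ^ (2 * (M - k) + 2) * a)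
      = C (w k) * (-1) ^ k * (X ^ (k ^ 2) * X ^ (2 * (M - k) + 2)) * a := by ring
    _ = C (w k) * (-1) ^ k * (X ^ M * b) * a := by rw [hb]
    _ = X ^ M * (C (w k) * (-1) ^ k * b * a) := by ring

end Pool.Agent.N699.PC
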