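import Pool.Agent.N699.PC.CSP

set_option autoImplicit false

/-! The generating function with infinite products and the infinite sum, in the product topology of `ℤ⟦X⟧`. -/

namespace Pool.Agent.N699.PC
open Finset PowerSeries Filter Topology
open scoped PowerSeries.WithPiTopology

theorem order_ge (f : ℤ⟦X⟧) (K : ℕ) (h : X ^ K ∣ f) : (K : ℕ∞) ≤ f.order := by
  apply PowerSeries.nat_le_order
  intro i hi
  rw [PowerSeries.X_pow_dvd_iff] at h
  exact h i hi

theorem tendsto_order (f : ℕ → ℤ⟦X⟧) (hf : ∀ j, X ^ (j + 1) ∣ f j) :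
    Tendsto (fun i ↦ (f i).order) atTop (𝓝 ⊤) := by
  rw [ENat.tendsto_nhds_top_iff_natCast_lt]
  intro n
  rw [Filter.eventually_atTop]
  refine ⟨n, fun j hj => ?_⟩
  have h := order_ge (f j) (j + 1) (hf j)
  refine lt_of_lt_of_le ?_ h
  exact_mod_cast (by omega : n < j + 1)

theorem limit_congr (g : ℕ → ℤ⟦X⟧) (L : ℤ⟦X⟧) (hg : Tendsto g atTop (𝓝 L)) (M : ℕ)
    (h : ∀ M' : ℕ, M ≤ M' → X ^ M ∣ g (M' + 1) - g M') : X ^ M ∣ L - g M := by
  have key : ∀ d : ℕ, X ^ M ∣ g (M + d) - g M := by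
    intro d
    induction d with
    | zero => simp
    | succ d ih =>
      have h1 := h (M + d) (by omega)
      have e : g (M + (d + 1)) - g M = (g (M + d + 1) - g (M + d)) + (g (M + d) - g M) := by
        rw [← add_assoc]; ring
      rw [e]
      exact dvd_add h1 ih
  rw [PowerSeries.X_pow_dvd_iff]
  intro n hn
  have h1 : Tendsto (fun i => coeff n (g i)) atTop (𝓝 (coeff n L)) :=
    ((PowerSeries.WithPiTopology.continuous_coeff ℤ n).tendsto L).comp hg
  have h2 : Tendsto (fun i => coeff n (g i)) atTop (𝓝 (coeff n (g M))) := by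
    apply tendsto_const_nhds.congr'
    rw [Filter.EventuallyEq, Filter.eventually_atTop]
    refine ⟨M, fun i hi => ?_⟩
    have h3 := key (i - M)
    rw [PowerSeries.X_pow_dvd_iff] at h3
    have h4 := h3 n hn
    rw [show M + (i - M) = i by omega, map_sub] at h4
    linarith
  have h5 := tendsto_nhds_unique h1 h2
  rw [map_sub, h5, sub_self]

theorem tprod_congr' (f : ℕ → ℤ⟦X⟧) (hf : ∀ j, X ^ (j + 1) ∣ f j) (M : ℕ) :
    X ^ M ∣ (∏' j, (1 + f j)) - ∏ j ∈ range M, (1 + f j) := by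
  have hm : Multipliable (fun j => 1 + f j) := by
    apply PowerSeries.WithPiTopology.multipliable_one_add_of_tendsto_order_atTop_nhds_top
    exact tendsto_order f hf
  apply limit_congr (fun M => ∏ j ∈ range M, (1 + f j)) _ hm.hasProd.tendsto_prod_nat
  intro M' hM'
  rw [Finset.prod_range_succ]
  have e : (∏ j ∈ range M', (1 + f j)) * (1 + f M') - ∏ j ∈ range M', (1 + f j) =
    (∏ j ∈ range M', (1 + f j)) * f M' := by ring
  rw [e]
  exact Dvd.dvd.mul_left (dvd_trans (pow_dvd_pow X (by omega)) (hf M')) _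

theorem tsum_congr' (f : ℕ → ℤ⟦X⟧) (hf : ∀ j, X ^ (j + 1) ∣ f j) (M : ℕ) :
    X ^ M ∣ (∑' j, f j) - ∑ j ∈ range M, f j := by
  have hm : Summable f :=
    PowerSeries.WithPiTopology.summable_of_tendsto_order_atTop_nhds_top _ (tendsto_order f hf)
  apply limit_congr (fun M => ∑ j ∈ range M, f j) _ hm.hasSum.tendsto_sum_nat
  intro M' hM'
  rw [Finset.sum_range_succ, add_sub_cancel_left]
  exact dvd_trans (pow_dvd_pow X (by omega)) (hf M')

/-- the generating function of the page -/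
noncomputable def gen : ℤ⟦X⟧ :=
  ∑' m : ℕ, (∏' j : ℕ, (1 + X ^ (2 * m + 2 + 2 * j))) * X ^ (2 * m + 1) *
    (invOfUnit (∏' j : ℕ, (1 - X ^ (2 * m + 1 + 2 * j))) 1) ^ 2

theorem gen_congr (M : ℕ) : X ^ M ∣ gen - CN M := by
  have h1 : X ^ M ∣ gen - ∑ m ∈ range M, (∏' j : ℕ, (1 + X ^ (2 * m + 2 + 2 * j))) * X ^ (2 * m + 1) *
      (invOfUnit (∏' j : ℕ, (1 - X ^ (2 * m + 1 + 2 * j))) 1) ^ 2 := by
    apply tsum_congr'
    intro m
    refine Dvd.dvd.mul_right (Dvd.dvd.mul_left ?_ _) _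
    exact pow_dvd_pow X (by omega)
  have h2 : X ^ M ∣ (∑ m ∈ range M, (∏' j : ℕ, (1 + X ^ (2 * m + 2 + 2 * j))) * X ^ (2 * m + 1) *
      (invOfUnit (∏' j : ℕ, (1 - X ^ (2 * m + 1 + 2 * j))) 1) ^ 2) - CN M := by
    unfold CN
    rw [← Finset.sum_sub_distrib]
    apply Finset.dvd_sum
    intro m _
    have hE := tprod_congr' (fun j => X ^ (2 * m + 2 + 2 * j))
      (fun j => pow_dvd_pow X (by omega)) M
    have hG := tprod_congr' (fun j => -X ^ (2 * m + 1 + 2 * j))
      (fun j => (pow_dvd_pow X (by omega)).neg_right) M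
    simp only [← sub_eq_add_neg] at hG
    set E : ℤ⟦X⟧ := ∏ i ∈ range M, (1 + X ^ (2 * m + 2 + 2 * i)) with hE'
    set G : ℤ⟦X⟧ := ∏ i ∈ range M, (1 - X ^ (2 * m + 1 + 2 * i)) with hG'
    set E' : ℤ⟦X⟧ := ∏' i : ℕ, (1 + X ^ (2 * m + 2 + 2 * i)) with hE2
    set G' : ℤ⟦X⟧ := ∏' i : ℕ, (1 - X ^ (2 * m + 1 + 2 * i)) with hG2
    have hG1 : constantCoeff G = 1 := cc_G m M
    have hG3 : constantCoeff G' = 1 := by
      have h := tprod_congr' (fun j => -X ^ (2 * m + 1 + 2 * j))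
        (fun j => (pow_dvd_pow X (by omega)).neg_right) 1
      simp only [← sub_eq_add_neg] at h
      rw [PowerSeries.X_pow_dvd_iff] at h
      have h0 := h 0 (by norm_num)
      rw [map_sub, ← hG2, coeff_zero_eq_constantCoeff_apply, coeff_zero_eq_constantCoeff_apply,
        cc_G m 1] at h0
      linarith
    obtain ⟨a, ha⟩ := iv_congr M G' G hG3 hG1 hG
    obtain ⟨b, hb⟩ := hE
    have h3 : invOfUnit G' 1 = iv G + X ^ M * a := by rw [← ha]; unfold iv; ring
    have h4 : E' = E + X ^ M * b := by rw [← hb]; ring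
    rw [h3, h4]
    refine ⟨X ^ (2 * m + 1) * (b * (iv G + X ^ M * a) ^ 2 + E * (2 * iv G * a + X ^ M * a ^ 2)), ?_⟩
    ring
  have e : gen - CN M = (gen - ∑ m ∈ range M, (∏' j : ℕ, (1 + X ^ (2 * m + 2 + 2 * j))) * X ^ (2 * m + 1) *
      (invOfUnit (∏' j : ℕ, (1 - X ^ (2 * m + 1 + 2 * j))) 1) ^ 2) +
      ((∑ m ∈ range M, (∏' j : ℕ, (1 + X ^ (2 * m + 2 + 2 * j))) * X ^ (2 * m + 1) *
      (invOfUnit (∏' j : ℕ, (1 - X ^ (2 * m + 1 + 2 * j))) 1) ^ 2) - CN M) := by ring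
  rw [e]
  exact dvd_add h1 h2

theorem coeff_gen (n : ℕ) : coeff n gen = c n := by
  have h := gen_congr (n + 1)
  rw [PowerSeries.X_pow_dvd_iff] at h
  have h2 := h n (by omega)
  rw [map_sub] at h2
  unfold c
  linarith

/-- all the infinite products and the infinite sum of `gen` converge, and the products in the
denominators have constant coefficient `1` -/
theorem converges :
    (∀ m : ℕ, Multipliable fun j : ℕ => (1 : ℤ⟦X⟧) + X ^ (2 * m + 2 + 2 * j)) ∧
    (∀ m : ℕ, Multipliable fun j : ℕ => (1 : ℤ⟦X⟧) - X ^ (2 * m + 1 + 2 * j)) ∧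
    (Summable fun m : ℕ => (∏' j : ℕ, ((1 : ℤ⟦X⟧) + X ^ (2 * m + 2 + 2 * j))) * X ^ (2 * m + 1) *
      (invOfUnit (∏' j : ℕ, (1 - X ^ (2 * m + 1 + 2 * j))) 1) ^ 2) ∧
    (∀ m : ℕ, (∏' j : ℕ, ((1 : ℤ⟦X⟧) - X ^ (2 * m + 1 + 2 * j))) *
      invOfUnit (∏' j : ℕ, (1 - X ^ (2 * m + 1 + 2 * j))) 1 = 1) := by
  refine ⟨fun m => ?_, fun m => ?_, ?_, fun m => ?_⟩
  · exact PowerSeries.WithPiTopology.multipliable_one_add_of_tendsto_order_atTop_nhds_top _
      (tendsto_order (fun j => X ^ (2 * m + 2 + 2 * j)) (fun j => pow_dvd_pow X (by omega)))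
  · have h := PowerSeries.WithPiTopology.multipliable_one_add_of_tendsto_order_atTop_nhds_top _
      (tendsto_order (fun j => -X ^ (2 * m + 1 + 2 * j))
        (fun j => (pow_dvd_pow X (by omega)).neg_right))
    simpa only [← sub_eq_add_neg] using h
  · apply PowerSeries.WithPiTopology.summable_of_tendsto_order_atTop_nhds_top
    apply tendsto_order
    intro m
    refine Dvd.dvd.mul_right (Dvd.dvd.mul_left ?_ _) _
    exact pow_dvd_pow X (by omega)
  · apply mul_invOfUnit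
    have h := tprod_congr' (fun j => -X ^ (2 * m + 1 + 2 * j))
      (fun j => (pow_dvd_pow X (by omega)).neg_right) 1
    simp only [← sub_eq_add_neg] at h
    rw [PowerSeries.X_pow_dvd_iff] at h
    have h0 := h 0 (by norm_num)
    rw [map_sub, coeff_zero_eq_constantCoeff_apply, coeff_zero_eq_constantCoeff_apply,
      cc_G m 1] at h0
    rw [Units.val_one]
    linarith

end Pool.Agent.N699.PC
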