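import Pool.Agent.N699.PC.Stm

/-!
# Project Q3 (helper699), part RT1: primitive representations by `3 y ^ 2 - x ^ 2` (after the proof of RT2 by helper607)
-/

set_option autoImplicit false

namespace Pool.Agent.N699.PC.RT1P

open Pool.Agent.N699.PC

/-- Thue's lemma -/
theorem thue (M U V : ℕ) [NeZero M] (h : M < (U + 1) * (V + 1)) (z : ZMod M) :
    ∃ u v : ℤ, (u ≠ 0 ∨ v ≠ 0) ∧ |u| ≤ U ∧ |v| ≤ V ∧ (u : ZMod M) = z * v := by
  obtain ⟨x, y, hxy, he⟩ := Fintype.exists_ne_map_eq_of_card_lt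
    (fun p : Fin (U + 1) × Fin (V + 1) => ((p.1 : ℕ) : ZMod M) - z * ((p.2 : ℕ) : ZMod M)) (by
      rw [ZMod.card, Fintype.card_prod, Fintype.card_fin, Fintype.card_fin]
      exact h)
  obtain ⟨⟨x1, hx1⟩, ⟨x2, hx2⟩⟩ := x
  obtain ⟨⟨y1, hy1⟩, ⟨y2, hy2⟩⟩ := y
  refine ⟨(x1 : ℤ) - y1, (x2 : ℤ) - y2, ?_, ?_, ?_, ?_⟩
  · by_contra hc
    push Not at hc
    obtain ⟨h1, h2⟩ := hc
    have h3 : x1 = y1 := by omega
    have h4 : x2 = y2 := by omega
    subst h3 h4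
    exact hxy rfl
  · rw [abs_le]
    constructor <;> omega
  · rw [abs_le]
    constructor <;> omega
  · push_cast
    simp only at he
    linear_combination he


theorem no_sq3 (u v : ℤ) (h : u ^ 2 = 3 * v ^ 2) : u = 0 ∧ v = 0 := by
  have h3 : ∀ n : ℤ, (3 : ℤ) ≠ n * n := by
    intro n hn
    rcases (by omega : n ≤ -2 ∨ n = -1 ∨ n = 0 ∨ n = 1 ∨ 2 ≤ n) with h | h | h | h | h
    · nlinarith
    · rw [h] at hn; norm_num at hn
    · rw [h] at hn; norm_num at hn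
    · rw [h] at hn; norm_num at hn
    · nlinarith
  have h4 := (Zsqrtd.norm_eq_zero h3 ⟨u, v⟩).1 (by
    rw [Zsqrtd.norm_def]
    simp only
    linarith)
  rw [Zsqrtd.ext_iff] at h4
  exact h4

theorem ex_rep (M : ℕ) (hM : M % 24 = 11) (z : ℤ) (hz : (M : ℤ) ∣ z ^ 2 - 3) :
    ∃ a b : ℤ, 3 * b ^ 2 = a ^ 2 + M ∧ (M : ℤ) ∣ z * b - a ∧ a ^ 2 < b ^ 2 := by
  have : NeZero M := ⟨by omega⟩
  have hM0 : (0 : ℤ) < M := by omega
  have hU1 := Nat.sqrt_le' (2 * M)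
  have hU2 := Nat.succ_le_succ_sqrt' (2 * M)
  have hV1 := Nat.sqrt_le' (M / 2)
  have hV2 := Nat.succ_le_succ_sqrt' (M / 2)
  obtain ⟨u, v, h0, hu, hv, he⟩ := thue M (Nat.sqrt (2 * M)) (Nat.sqrt (M / 2)) (by
    have h1 : M ^ 2 < ((Nat.sqrt (2 * M) + 1) * (Nat.sqrt (M / 2) + 1)) ^ 2 := by
      rw [mul_pow]
      calc M ^ 2 < (2 * M + 1) * (M / 2 + 1) := by
            obtain ⟨q, hq⟩ : ∃ q, M = 2 * q + 1 := ⟨M / 2, by omega⟩
            have h2 : M / 2 = q := by omega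
            rw [h2, hq]
            nlinarith
        _ ≤ _ := Nat.mul_le_mul hU2 hV2
    exact lt_of_pow_lt_pow_left₀ 2 (Nat.zero_le _) h1) (z : ZMod M)
  have hd : (M : ℤ) ∣ u - z * v := by
    rw [← ZMod.intCast_zmod_eq_zero_iff_dvd]
    push_cast
    rw [he, sub_self]
  obtain ⟨k, hk⟩ := hd
  obtain ⟨l, hl⟩ := hz
  have hu2 : u ^ 2 ≤ 2 * M := by
    have h1 : u ^ 2 ≤ ((Nat.sqrt (2 * M) : ℕ) : ℤ) ^ 2 := by
      rw [← sq_abs]
      exact pow_le_pow_left₀ (abs_nonneg u) hu 2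
    have h2 : ((Nat.sqrt (2 * M) : ℕ) : ℤ) ^ 2 ≤ 2 * M := by exact_mod_cast hU1
    linarith
  have hv2 : v ^ 2 ≤ (M / 2 : ℕ) := by
    have h1 : v ^ 2 ≤ ((Nat.sqrt (M / 2) : ℕ) : ℤ) ^ 2 := by
      rw [← sq_abs]
      exact pow_le_pow_left₀ (abs_nonneg v) hv 2
    have h2 : ((Nat.sqrt (M / 2) : ℕ) : ℤ) ^ 2 ≤ (M / 2 : ℕ) := by exact_mod_cast hV1
    linarith
  have ht : u ^ 2 - 3 * v ^ 2 = M * (k * (u + z * v) + l * v ^ 2) := by
    linear_combination (u + z * v) * hk + v ^ 2 * hl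
  obtain ⟨t, htd⟩ : ∃ t, t = k * (u + z * v) + l * v ^ 2 := ⟨_, rfl⟩
  rw [← htd] at ht
  have hv3 : 2 * v ^ 2 < M := by omega
  have ht1 : -2 < t := by
    by_contra hc
    push Not at hc
    nlinarith [sq_nonneg u]
  have ht2 : t < 3 := by
    by_contra hc
    push Not at hc
    nlinarith [sq_nonneg v]
  have hcase : t = -1 ∨ t = 0 ∨ t = 1 ∨ t = 2 := by omega
  rcases hcase with h | h | h | h
  · rw [h] at ht
    refine ⟨u, v, by linarith, ⟨-k, by linear_combination (-1 : ℤ) * hk⟩, ?_⟩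
    linarith
  · exfalso
    rw [h, mul_zero] at ht
    obtain ⟨e1, e2⟩ := no_sq3 u v (by linarith)
    rcases h0 with h0 | h0
    · exact h0 e1
    · exact h0 e2
  · exfalso
    rw [h, mul_one] at ht
    have hu3' : ∃ w, u ^ 2 = 3 * w ∨ u ^ 2 = 3 * w + 1 := by
      rcases (by omega : u % 3 = 0 ∨ u % 3 = 1 ∨ u % 3 = 2) with h | h | h
      · obtain ⟨q, hq⟩ : ∃ q, u = 3 * q := ⟨u / 3, by omega⟩
        exact ⟨3 * q ^ 2, Or.inl (by rw [hq]; ring)⟩
      · obtain ⟨q, hq⟩ : ∃ q, u = 3 * q + 1 := ⟨u / 3, by omega⟩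
        exact ⟨3 * q ^ 2 + 2 * q, Or.inr (by rw [hq]; ring)⟩
      · obtain ⟨q, hq⟩ : ∃ q, u = 3 * q + 2 := ⟨u / 3, by omega⟩
        exact ⟨3 * q ^ 2 + 4 * q + 1, Or.inr (by rw [hq]; ring)⟩
    obtain ⟨w, hw⟩ := hu3'
    omega
  · exfalso
    rw [h] at ht
    have hv0 : v ^ 2 = 0 := by
      have := sq_nonneg v
      omega
    rcases Int.even_or_odd' u with ⟨a, ha | ha⟩
    · have h1 : u ^ 2 = 4 * a ^ 2 := by rw [ha]; ring
      omega
    · have h1 : u ^ 2 = 2 * (2 * a ^ 2 + 2 * a) + 1 := by rw [ha]; ring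
      omega

theorem prim (M : ℕ) (hM : M % 24 = 11) (z a b : ℤ) (h1 : 3 * b ^ 2 = a ^ 2 + M)
    (h2 : (M : ℤ) ∣ z * b - a) (hz : (M : ℤ) ∣ z ^ 2 - 3) (p : ℕ) (hp : p.Prime)
    (ha : (p : ℤ) ∣ a) (hb : (p : ℤ) ∣ b) : False := by
  obtain ⟨a1, ha1⟩ := ha
  obtain ⟨b1, hb1⟩ := hb
  obtain ⟨k, hk⟩ := h2
  obtain ⟨l, hl⟩ := hz
  obtain ⟨m, hm⟩ : ∃ m, m = 3 * b1 ^ 2 - a1 ^ 2 := ⟨_, rfl⟩
  have hMm : (M : ℤ) = p ^ 2 * m := by
    have : (M : ℤ) = 3 * b ^ 2 - a ^ 2 := by linarith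
    rw [this, hm, ha1, hb1]
    ring
  have hp0 : (p : ℤ) ≠ 0 := by exact_mod_cast hp.ne_zero
  have hm0 : m ≠ 0 := by
    rintro rfl
    rw [mul_zero] at hMm
    omega
  have e1 : z * b1 - a1 = p * m * k := by
    apply mul_left_cancel₀ hp0
    rw [hMm, ha1, hb1] at hk
    linear_combination hk
  have e2 : m * 1 = m * (p * (k * (z * b1 + a1) - p * l * b1 ^ 2)) := by
    rw [hMm] at hl
    linear_combination (z * b1 + a1) * e1 - b1 ^ 2 * hl + hm
  have e3 := mul_left_cancel₀ hm0 e2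
  have e4 : (p : ℤ) ∣ 1 := ⟨_, e3⟩
  have e5 : p ∣ 1 := by exact_mod_cast e4
  exact hp.one_lt.ne' (Nat.dvd_one.1 e5)

/-- the sign -/
def sg (ε : Bool) : ℤ := if ε then 1 else -1

theorem sg_sq (ε : Bool) : sg ε ^ 2 = 1 := by
  cases ε <;> simp [sg]

/-- the root belonging to a representation -/
noncomputable def zz (M a b : ℕ) (ε : Bool) : ZMod M :=
  (sg ε : ZMod M) * ((a : ZMod M) * (b : ZMod M)⁻¹)

theorem cop (M : ℕ) (a b : ℕ) (h1 : 3 * b ^ 2 = a ^ 2 + M)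
    (h : Nat.Coprime a b) : Nat.Coprime b M := by
  by_contra hc
  rw [Nat.Prime.not_coprime_iff_dvd] at hc
  obtain ⟨p, hp, hpb, hpM⟩ := hc
  have h2 : p ∣ a ^ 2 := by
    have h3 : p ∣ 3 * b ^ 2 := Dvd.dvd.mul_left (dvd_pow hpb two_ne_zero) 3
    rw [h1] at h3
    exact (Nat.dvd_add_left hpM).1 h3
  have h4 := hp.dvd_of_dvd_pow h2
  exact Nat.Prime.not_coprime_iff_dvd.2 ⟨p, hp, h4, hpb⟩ h

theorem zz_mul (M : ℕ) (a b : ℕ) (h1 : 3 * b ^ 2 = a ^ 2 + M)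
    (h : Nat.Coprime a b) (ε : Bool) : zz M a b ε * b = sg ε * a := by
  have h2 := ZMod.coe_mul_inv_eq_one b (cop M a b h1 h)
  unfold zz
  linear_combination (sg ε : ZMod M) * a * h2

theorem zz_sq (M : ℕ) (a b : ℕ) (h1 : 3 * b ^ 2 = a ^ 2 + M)
    (h : Nat.Coprime a b) (ε : Bool) : zz M a b ε ^ 2 - 3 = 0 := by
  have h2 := ZMod.coe_mul_inv_eq_one b (cop M a b h1 h)
  have h3 := zz_mul M a b h1 h ε
  have h4 : (3 * (b : ZMod M) ^ 2) = (a : ZMod M) ^ 2 := by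
    have h5 : ((3 * b ^ 2 : ℕ) : ZMod M) = ((a ^ 2 + M : ℕ) : ZMod M) := by
      rw [h1]
    push_cast at h5
    rw [ZMod.natCast_self, add_zero] at h5
    exact h5
  have h5 : (sg ε : ZMod M) ^ 2 = 1 := by
    have h6 := sg_sq ε
    have h7 : ((sg ε ^ 2 : ℤ) : ZMod M) = 1 := by rw [h6]; simp
    push_cast at h7
    exact h7
  have h6 : (zz M a b ε ^ 2 - 3) * (b : ZMod M) ^ 2 = 0 := by
    linear_combination (zz M a b ε * b + sg ε * a) * h3 + (a : ZMod M) ^ 2 * h5 - h4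
  have h7 : zz M a b ε ^ 2 - 3 = (zz M a b ε ^ 2 - 3) * (b : ZMod M) ^ 2 *
      ((b : ZMod M)⁻¹) ^ 2 := by
    linear_combination (-(zz M a b ε ^ 2 - 3)) * ((b : ZMod M) * (b : ZMod M)⁻¹ + 1) * h2
  rw [h7, h6, zero_mul]

theorem zz_inj (M : ℕ) (hM : M % 24 = 11) (a b a' b' : ℕ) (h1 : 3 * b ^ 2 = a ^ 2 + M)
    (h1' : 3 * b' ^ 2 = a' ^ 2 + M) (h : Nat.Coprime a b) (h' : Nat.Coprime a' b')
    (ha : 1 ≤ a) (hb : a < b) (ha' : 1 ≤ a') (hb' : a' < b') (ε ε' : Bool)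
    (e : zz M a b ε = zz M a' b' ε') : a = a' ∧ b = b' ∧ ε = ε' := by
  have h3 := zz_mul M a b h1 h ε
  have h3' := zz_mul M a' b' h1' h' ε'
  have h4 : (M : ℤ) ∣ (sg ε * a * b' - sg ε' * a' * b) := by
    rw [← ZMod.intCast_zmod_eq_zero_iff_dvd]
    push_cast
    rw [e] at h3
    linear_combination (-(b' : ZMod M)) * h3 + (b : ZMod M) * h3'
  have q1 : (a : ℤ) * b' ≤ b * b' := by
    have : (a : ℤ) ≤ b := by exact_mod_cast hb.le
    exact mul_le_mul_of_nonneg_right this (by positivity)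
  have q2 : (a' : ℤ) * b ≤ b * b' := by
    have : (a' : ℤ) ≤ b' := by exact_mod_cast hb'.le
    rw [mul_comm (b : ℤ) b']
    exact mul_le_mul_of_nonneg_right this (by positivity)
  have q3 : 2 * (b : ℤ) ^ 2 < M := by
    have h6 : 3 * (b : ℤ) ^ 2 = (a : ℤ) ^ 2 + M := by exact_mod_cast h1
    have h7 : (a : ℤ) < b := by exact_mod_cast hb
    have h8 : (0 : ℤ) ≤ a := by positivity
    nlinarith
  have q4 : 2 * (b' : ℤ) ^ 2 < M := by
    have h6 : 3 * (b' : ℤ) ^ 2 = (a' : ℤ) ^ 2 + M := by exact_mod_cast h1'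
    have h7 : (a' : ℤ) < b' := by exact_mod_cast hb'
    have h8 : (0 : ℤ) ≤ a' := by positivity
    nlinarith
  have p1 : (0 : ℤ) < (a : ℤ) * b' := by
    have : 0 < b' := by omega
    positivity
  have p2 : (0 : ℤ) < (a' : ℤ) * b := by
    have : 0 < b := by omega
    positivity
  have h6 : sg ε * a * b' - sg ε' * a' * b = 0 := by
    refine Int.eq_zero_of_abs_lt_dvd h4 ?_
    rw [abs_lt]
    cases ε <;> cases ε' <;> simp only [sg, if_true, Bool.false_eq_true, if_false] <;>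
      constructor <;> nlinarith [sq_nonneg ((b : ℤ) - b')]
  have h7 : sg ε * a * b' = sg ε' * a' * b := by linarith
  have h8 : ε = ε' ∧ (a : ℤ) * b' = a' * b := by
    cases ε <;> cases ε' <;> simp only [sg, if_true, Bool.false_eq_true, if_false] at h7 ⊢
    · exact ⟨trivial, by linarith⟩
    · exfalso
      nlinarith
    · exfalso
      nlinarith
    · exact ⟨trivial, by linarith⟩
  obtain ⟨h9, h10⟩ := h8
  have h11 : a * b' = a' * b := by exact_mod_cast h10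
  have h12 : a ∣ a' := h.dvd_of_dvd_mul_right ⟨b', h11.symm⟩
  have h13 : a' ∣ a := h'.dvd_of_dvd_mul_right ⟨b, h11⟩
  have h14 : a = a' := Nat.dvd_antisymm h12 h13
  refine ⟨h14, ?_, h9⟩
  rw [h14] at h11
  exact (Nat.eq_of_mul_eq_mul_left (by omega) h11).symm

theorem t_RT1 : Pool.Agent.N699.PC.RT1 := by
  intro M hM
  have hne : NeZero M := ⟨by omega⟩
  unfold R1 rt
  obtain ⟨A, hA⟩ : ∃ A, A = ((Finset.range (M + 1) ×ˢ Finset.range (M + 1)).filter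
    (fun p => 1 ≤ p.1 ∧ p.1 < p.2 ∧ 3 * p.2 ^ 2 = p.1 ^ 2 + M ∧ Nat.Coprime p.1 p.2)) :=
    ⟨_, rfl⟩
  rw [← hA]
  have hmem : ∀ x, x ∈ A → 1 ≤ x.1 ∧ x.1 < x.2 ∧ 3 * x.2 ^ 2 = x.1 ^ 2 + M ∧
      Nat.Coprime x.1 x.2 := by
    intro x hx
    rw [hA, Finset.mem_filter] at hx
    exact hx.2
  have hc : 2 * A.card = (A ×ˢ (Finset.univ : Finset Bool)).card := by
    rw [Finset.card_product, Finset.card_univ, Fintype.card_bool, mul_comm]
  rw [hc]
  refine Finset.card_bij (fun x _ => (zz M x.1.1 x.1.2 x.2).val) ?_ ?_ ?_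
  · rintro ⟨⟨a, b⟩, ε⟩ hx
    obtain ⟨-, -, h3, h4⟩ := hmem _ (Finset.mem_product.1 hx).1
    dsimp only at h3 h4 ⊢
    rw [Finset.mem_filter, Finset.mem_range]
    refine ⟨ZMod.val_lt _, ?_⟩
    rw [← ZMod.intCast_zmod_eq_zero_iff_dvd]
    push_cast
    rw [ZMod.natCast_zmod_val]
    exact zz_sq M a b h3 h4 ε
  · rintro ⟨⟨a, b⟩, ε⟩ hx ⟨⟨a', b'⟩, ε'⟩ hx' he
    obtain ⟨h1, h2, h3, h4⟩ := hmem _ (Finset.mem_product.1 hx).1
    obtain ⟨h1', h2', h3', h4'⟩ := hmem _ (Finset.mem_product.1 hx').1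
    dsimp only at h1 h2 h3 h4 h1' h2' h3' h4' he
    obtain ⟨e1, e2, e3⟩ := zz_inj M hM a b a' b' h3 h3' h4 h4' h1 h2 h1' h2' ε ε'
      (ZMod.val_injective M he)
    rw [e1, e2, e3]
  · intro z hz
    rw [Finset.mem_filter, Finset.mem_range] at hz
    obtain ⟨hzM, hz⟩ := hz
    obtain ⟨a, b, h1, h2, hab⟩ := ex_rep M hM z hz
    have ha : a ≠ 0 := by
      rintro rfl
      omega
    have hb : b ≠ 0 := by
      rintro rfl
      nlinarith [sq_nonneg a]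
    have h3 : 3 * b.natAbs ^ 2 = a.natAbs ^ 2 + M := by
      have h4 : ((3 * b.natAbs ^ 2 : ℕ) : ℤ) = ((a.natAbs ^ 2 + M : ℕ) : ℤ) := by
        push_cast
        rw [sq_abs, sq_abs]
        exact h1
      exact_mod_cast h4
    have hlt : a.natAbs < b.natAbs := Int.natAbs_lt_iff_sq_lt.2 hab
    have h4 : Nat.Coprime a.natAbs b.natAbs := by
      by_contra hcc
      rw [Nat.Prime.not_coprime_iff_dvd] at hcc
      obtain ⟨p, hp, hpa, hpb⟩ := hcc
      exact prim M hM z a b h1 h2 hz p hp (Int.natCast_dvd.2 hpa) (Int.natCast_dvd.2 hpb)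
    have ha1 : 1 ≤ a.natAbs := by omega
    have hb1 : 1 ≤ b.natAbs := by omega
    have hb2 : b.natAbs ≤ M := by nlinarith
    have ha2 : a.natAbs ≤ M := by omega
    refine ⟨((a.natAbs, b.natAbs), decide (0 < a * b)), ?_, ?_⟩
    · rw [Finset.mem_product]
      refine ⟨?_, Finset.mem_univ _⟩
      rw [hA, Finset.mem_filter, Finset.mem_product, Finset.mem_range, Finset.mem_range]
      exact ⟨⟨by dsimp only; omega, by dsimp only; omega⟩, ha1, hlt, h3, h4⟩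
    · dsimp only
      have h5 := ZMod.coe_mul_inv_eq_one b.natAbs (cop M _ _ h3 h4)
      have h6 : ((z * b - a : ℤ) : ZMod M) = 0 := by
        rw [ZMod.intCast_zmod_eq_zero_iff_dvd]
        exact h2
      push_cast at h6
      have h7 : (sg (decide (0 < a * b)) : ZMod M) * (a.natAbs : ZMod M) =
          (z : ZMod M) * (b.natAbs : ZMod M) := by
        rw [Nat.cast_natAbs, Nat.cast_natAbs]
        rcases lt_or_gt_of_ne ha with ha' | ha' <;> rcases lt_or_gt_of_ne hb with hb' | hb'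
        · rw [abs_of_neg ha', abs_of_neg hb', decide_eq_true (mul_pos_of_neg_of_neg ha' hb')]
          simp only [sg, if_true]
          push_cast
          linear_combination h6
        · rw [abs_of_neg ha', abs_of_pos hb',
            decide_eq_false (not_lt.2 (mul_neg_of_neg_of_pos ha' hb').le)]
          simp only [sg, Bool.false_eq_true, if_false]
          push_cast
          linear_combination (-1 : ZMod M) * h6
        · rw [abs_of_pos ha', abs_of_neg hb',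
            decide_eq_false (not_lt.2 (mul_neg_of_pos_of_neg ha' hb').le)]
          simp only [sg, Bool.false_eq_true, if_false]
          push_cast
          linear_combination h6
        · rw [abs_of_pos ha', abs_of_pos hb', decide_eq_true (mul_pos ha' hb')]
          simp only [sg, if_true]
          push_cast
          linear_combination (-1 : ZMod M) * h6
      have h8 : zz M a.natAbs b.natAbs (decide (0 < a * b)) = (z : ZMod M) := by
        unfold zz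
        linear_combination (b.natAbs : ZMod M)⁻¹ * h7 + (z : ZMod M) * h5
      rw [h8]
      exact ZMod.val_cast_of_lt hzM

end Pool.Agent.N699.PC.RT1P
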