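import Pool.Agent.N699.PC.Pre
import Pool.Agent.N699.PC.RT1P

set_option autoImplicit false

namespace Pool.Agent.N699.PC

theorem t_ALL : ALL := pre_ Pool.Agent.N699.PC.RT1P.t_RT1

end Pool.Agent.N699.PC
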