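import Pool.Agent.N699.PC.Asm
import Pool.Agent.N699.PC.Gen
import Pool.Agent.N505.Q3.JAC
import Pool.Agent.N409.Q3_REC
import Pool.Agent.N323.Q3_PARA
import Pool.Agent.N346.Q3_CS
import Pool.Agent.N94.Q3_MAIA
import Pool.Agent.N691.Q3_HCO
import Pool.Agent.N828.Q3_MODA
import Pool.Agent.N286.Q3_H
import Pool.Agent.N868.Q3_LOC
import Pool.Agent.N607.Q3_RT2
import Pool.Agent.N671.Q3_RT4
import Pool.Agent.N751.Q3_P12A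
import Pool.Agent.N390.Q3_FIN

set_option autoImplicit false

namespace Pool.Agent.N699.PC

theorem pre_ (hRT1 : RT1) : ALL :=
  all_ Pool.Agent.N505.Q3.t_JAC Pool.Agent.N409.Q3.t_REC Pool.Agent.N409.Q3.t_SPL Pool.Agent.N409.Q3.t_LIM
    Pool.Agent.N323.Q3.t_PARA Pool.Agent.N346.Q3.t_CS Pool.Agent.N346.Q3.t_STA Pool.Agent.N346.Q3.t_PHIA
    Pool.Agent.N94.Q3.t_MAIA Pool.Agent.N691.Q3.t_HCO Pool.Agent.N691.Q3.t_IDEA Pool.Agent.N828.Q3.t_MODA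
    Pool.Agent.N286.Q3.t_HSU Pool.Agent.N286.Q3.t_HOD Pool.Agent.N286.Q3.t_HM4
    Pool.Agent.N868.Q3.t_LOC1 Pool.Agent.N868.Q3.t_LOC2 Pool.Agent.N868.Q3.t_LOC3 Pool.Agent.N868.Q3.t_LOC4
    hRT1 Pool.Agent.N607.Q3.t_RT2 Pool.Agent.N671.Q3.t_RT4 Pool.Agent.N751.Q3.t_P12A
    Pool.Agent.N390.Q3.t_FIN1A Pool.Agent.N390.Q3.t_FIN2A Pool.Agent.N390.Q3.t_FIN3A Pool.Agent.N390.Q3.t_ALLA

end Pool.Agent.N699.PC
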