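import Mathlib

set_option autoImplicit false

/-! Statements of project PC (MP_e258d6_nt): congruences modulo 4 and 8 for a limiting two-colour partition function. -/

namespace Pool.Agent.N699.PC
open Finset PowerSeries

/-- the inverse of a power series with constant coefficient `1` -/
noncomputable def iv (f : ℤ⟦X⟧) : ℤ⟦X⟧ := invOfUnit f 1

/-- `Q = q²` -/
noncomputable def Q : ℤ⟦X⟧ := X ^ 2
/-- `(Q; Q)_n`, `(q; q²)_n`, `(Q; Q²)_n`, `(-Q; Q)_n` -/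
noncomputable def ee (n : ℕ) : ℤ⟦X⟧ := ∏ i ∈ range n, (1 - X ^ (2 * i + 2))
noncomputable def oo (n : ℕ) : ℤ⟦X⟧ := ∏ i ∈ range n, (1 - X ^ (2 * i + 1))
noncomputable def OO (n : ℕ) : ℤ⟦X⟧ := ∏ i ∈ range n, (1 - X ^ (4 * i + 2))
noncomputable def pp (n : ℕ) : ℤ⟦X⟧ := ∏ i ∈ range n, (1 + X ^ (2 * i + 2))

/-- the weight: `1` for `k = 0`, otherwise `2` -/
def w (k : ℕ) : ℤ := if k = 0 then 1 else 2

/-- the truncated generating function -/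
noncomputable def CN (N : ℕ) : ℤ⟦X⟧ :=
  ∑ m ∈ range N, X ^ (2 * m + 1) * (∏ i ∈ range N, (1 + X ^ (2 * m + 2 + 2 * i))) *
    (iv (∏ i ∈ range N, (1 - X ^ (2 * m + 1 + 2 * i)))) ^ 2

/-- the coefficients `c(n)` -/
noncomputable def c (n : ℕ) : ℤ := coeff n (CN (n + 1))

/-- `F k M` -/
noncomputable def F (k M : ℕ) : ℤ⟦X⟧ := ∑ m ∈ Ico k M, X ^ (2 * m) * ee m * OO m * iv (ee (m - k)) * iv (ee (m + k))
/-- the partial theta functions -/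
noncomputable def A (k n : ℕ) : ℤ⟦X⟧ :=
  ∑ s ∈ range n, (-1 : ℤ⟦X⟧) ^ s * X ^ (2 * (3 * s ^ 2 + 2 * s + k * (3 * s + 1))) * (1 + X ^ (2 * (2 * s + 1 + k)))
noncomputable def S (M : ℕ) : ℤ⟦X⟧ := ∑ m ∈ range M, X ^ (2 * m + 1) * oo m ^ 2 * iv (pp m)
noncomputable def phi (M : ℕ) : ℤ⟦X⟧ := ∑ k ∈ range (M + 1), C (w k) * (-1) ^ k * X ^ (k ^ 2)
noncomputable def HN (N : ℕ) : ℤ⟦X⟧ := ∑ k ∈ range N, C (w k) * (-1) ^ k * X ^ (k ^ 2 + 1) * A k N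

/-- the coefficients `h(n)` -/
def h (n : ℕ) : ℤ := ∑ k ∈ range (n + 1), ∑ s ∈ range (n + 1), w k * (-1) ^ (k + s) *
  ((if 1 + k ^ 2 + 6 * s ^ 2 + 4 * s + (6 * s + 2) * k = n then 1 else 0) +
   (if 3 + k ^ 2 + 6 * s ^ 2 + 8 * s + (6 * s + 4) * k = n then 1 else 0))

/-- JAC: finite form of Jacobi's triple product -/
def JAC : Prop := ∀ m : ℕ, oo m ^ 2 = ∑ k ∈ range (m + 1), C (w k) * (-1) ^ k * X ^ (k ^ 2) *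
  (ee (2 * m) * iv (ee (m - k)) * iv (ee (m + k)))
/-- REC: the telescoping recursion -/
def REC : Prop := ∀ k M : ℕ, k + 1 ≤ M → F k M + X ^ (6 * k + 6) * F (k + 2) M =
  X ^ (2 * k) * (1 + X ^ (2 * k + 2)) * ee M * OO M * iv (ee (M - k - 1)) * iv (ee (M + k + 1))
/-- SPL: `(Q;Q²)_n (Q²;Q²)_n = (Q;Q)_{2n}` -/
def SPL : Prop := ∀ n : ℕ, OO n * (ee n * pp n) = ee (2 * n)
/-- LIM -/
def LIM : Prop := ∀ k M : ℕ, k ≤ M → X ^ (2 * (M - k) + 2) ∣ ee (2 * M) * ee M * iv (ee (M - k)) * iv (ee (M + k)) - 1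
/-- PAR: the partial theta function -/
def PAR : Prop := ∀ n k M : ℕ, k + 2 * n + 1 ≤ M → X ^ n ∣ ee M * pp M * F k M - A k n
def PARA : Prop := REC → SPL → LIM → PAR
/-- CS -/
def CS : Prop := ∀ M : ℕ, X ^ (2 * M) ∣ CN M * oo M ^ 2 - pp M * S M
/-- PHI -/
def PHI : Prop := ∀ M : ℕ, X ^ M ∣ oo M ^ 2 * ee M - phi M
def PHIA : Prop := JAC → LIM → PHI
/-- MAI: the Hecke type double sum, truncated -/
def MAI : Prop := ∀ N M : ℕ, 3 * N + 1 ≤ M → X ^ N ∣ CN M * phi M - HN N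
def MAIA : Prop := JAC → SPL → PAR → CS → PHI → MAI
/-- STA: stability of the coefficients -/
def STA : Prop := ∀ n M : ℕ, n < M → coeff n (CN M) = c n
/-- HCO: coefficients of `HN` -/
def HCO : Prop := ∀ n N : ℕ, n < N → coeff n (HN N) = h n
/-- IDE: the identity for the coefficients -/
def IDE : Prop := ∀ n : ℕ, ∑ k ∈ range (n + 1), (if k ^ 2 ≤ n then w k * (-1) ^ k * c (n - k ^ 2) else 0) = h n
def IDEA : Prop := MAI → STA → HCO → IDE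
/-- MOD: the congruence modulo 8 -/
def MOD : Prop := ∀ n : ℕ, (8 : ℤ) ∣ c n - (h n + 6 * ∑ k ∈ Icc 1 n, (if k ^ 2 ≤ n then (-1) ^ k * h (n - k ^ 2) else 0) +
  4 * ∑ k ∈ Icc 1 n, (if 2 * k ^ 2 ≤ n then h (n - 2 * k ^ 2) else 0))
def MODA : Prop := IDE → MOD

/-- the representation numbers -/
def P1 (N : ℕ) : ℕ := ((range (N + 1) ×ˢ range (N + 1)).filter (fun p => 1 ≤ p.1 ∧ p.1 < p.2 ∧ 3 * p.2 ^ 2 = p.1 ^ 2 + N)).card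
def P2 (N : ℕ) : ℕ := ((range (N + 1) ×ˢ range (N + 1)).filter (fun p => 1 ≤ p.1 ∧ 1 ≤ p.2 ∧ 2 * p.1 ^ 2 + 3 * p.2 ^ 2 = N)).card
/-- HSU: the support of `h` -/
def HSU : Prop := ∀ n : ℕ, h n ≠ 0 → ∃ x y : ℕ, 3 * n + x ^ 2 = 3 * y ^ 2 + 1
/-- HOD: the parity of `h` -/
def HOD : Prop := ∀ n : ℕ, Odd (h n) ↔ ∃ x : ℕ, 3 * n = 2 * x ^ 2 + 1
/-- HM4: `h` modulo 4 -/
def HM4 : Prop := ∀ n : ℕ, 1 ≤ n → (¬ ∃ x : ℕ, 3 * n = 2 * x ^ 2 + 1) → (4 : ℤ) ∣ h n - 2 * P1 (3 * n - 1)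

/-- LOC1 .. LOC4: local obstructions -/
def LOC1 : Prop := ∀ k m x y z : ℕ, 3 * (y ^ 2 + z ^ 2) ≠ x ^ 2 + 4 ^ k * (8 * m + 1)
def LOC2 : Prop := ∀ k m y z : ℕ, 2 * y ^ 2 + 6 * z ^ 2 ≠ 4 ^ k * (2 * m + 1)
def LOC3 : Prop := ∀ k m x y : ℕ, 3 * y ^ 2 ≠ x ^ 2 + 4 ^ k * (16 * m + 6)
def LOC4 : Prop := ∀ k m y z : ℕ, 2 * y ^ 2 + 3 * z ^ 2 ≠ 4 ^ k * (48 * m + 38)

/-- the primitive representation numbers and the square roots -/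
def R1 (M : ℕ) : ℕ := ((range (M + 1) ×ˢ range (M + 1)).filter (fun p => 1 ≤ p.1 ∧ p.1 < p.2 ∧ 3 * p.2 ^ 2 = p.1 ^ 2 + M ∧ Nat.Coprime p.1 p.2)).card
def R2 (M : ℕ) : ℕ := ((range (M + 1) ×ˢ range (M + 1)).filter (fun p => 1 ≤ p.1 ∧ 1 ≤ p.2 ∧ 2 * p.1 ^ 2 + 3 * p.2 ^ 2 = M ∧ Nat.Coprime p.1 p.2)).card
def rt (D : ℤ) (M : ℕ) : ℕ := ((range M).filter (fun z : ℕ => (M : ℤ) ∣ (z : ℤ) ^ 2 - D)).card
def RT1 : Prop := ∀ M : ℕ, M % 24 = 11 → 2 * R1 M = rt 3 M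
def RT2 : Prop := ∀ M : ℕ, M % 24 = 11 → 2 * R2 M = rt (-6) M
def RT4 : Prop := ∀ M : ℕ, M % 24 = 11 → (4 : ℤ) ∣ (rt 3 M : ℤ) - rt (-6) M
/-- P12: equal parity -/
def P12 : Prop := ∀ k m : ℕ, (2 : ℤ) ∣ (P1 (4 ^ k * (24 * m + 11)) : ℤ) - P2 (4 ^ k * (24 * m + 11))
def P12A : Prop := RT1 → RT2 → RT4 → P12

/-- FIN1 .. FIN3: the three families, `N = 3 n - 1` -/
def FIN1 : Prop := ∀ k m n : ℕ, 3 * n = 4 ^ k * (24 * m + 11) + 1 → (4 : ℤ) ∣ c n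
def FIN2 : Prop := ∀ k m n : ℕ, 3 * n = 4 ^ k * (24 * m + 17) + 1 → (8 : ℤ) ∣ c n
def FIN3 : Prop := ∀ k m n : ℕ, 3 * n = 4 ^ k * (48 * m + 38) + 1 → (4 : ℤ) ∣ c n
def FIN1A : Prop := MOD → HOD → HM4 → P12 → FIN1
def FIN2A : Prop := MOD → HSU → HOD → LOC1 → LOC2 → FIN2
def FIN3A : Prop := MOD → HSU → HOD → LOC3 → LOC4 → FIN3

/-- ALL: the three congruences -/
def ALL : Prop := ∀ k n : ℕ, 1 ≤ k →
  (4 : ℤ) ∣ c (2 ^ (2 * k + 3) * n + (11 * 4 ^ k + 1) / 3) ∧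
  (8 : ℤ) ∣ c (2 ^ (2 * k + 3) * n + (17 * 4 ^ k + 1) / 3) ∧
  (4 : ℤ) ∣ c (2 ^ (2 * k + 4) * n + (38 * 4 ^ k + 1) / 3)
def ALLA : Prop := FIN1 → FIN2 → FIN3 → ALL

end Pool.Agent.N699.PC
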